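import Mathlib

open Matrix Polynomial

namespace Pool.Agent.Lib.MP_e39433_co

variable {ι : Type} [Fintype ι] [DecidableEq ι]

/-- integer vectors inside the rational vectors -/
def Lam (ι : Type) : Submodule ℤ (ι → ℚ) where
  carrier := {v | ∀ i, ∃ z : ℤ, v i = z}
  add_mem' := by
    intro a b ha hb i
    obtain ⟨x, hx⟩ := ha i
    obtain ⟨y, hy⟩ := hb i
    exact ⟨x + y, by simp [hx, hy]⟩
  zero_mem' := fun i => ⟨0, by simp⟩
  smul_mem' := by
    intro c a ha i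
    obtain ⟨x, hx⟩ := ha i
    exact ⟨c * x, by simp [hx]⟩

omit [Fintype ι] [DecidableEq ι] in
lemma mem_Lam {v : ι → ℚ} : v ∈ Lam ι ↔ ∀ i, ∃ z : ℤ, v i = z := Iff.rfl

/-- preimage of the integer vectors under a rational matrix -/
def Pre (M : Matrix ι ι ℚ) : Submodule ℤ (ι → ℚ) where
  carrier := {v | M *ᵥ v ∈ Lam ι}
  add_mem' := by
    intro a b ha hb
    simp only [Set.mem_ofPred_eq, mulVec_add] at *
    exact add_mem ha hb
  zero_mem' := by simp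
  smul_mem' := by
    intro c a ha
    simp only [Set.mem_ofPred_eq, mulVec_smul] at *
    exact Submodule.smul_mem _ c ha

omit [DecidableEq ι] in
lemma mem_Pre {M : Matrix ι ι ℚ} {v : ι → ℚ} : v ∈ Pre M ↔ M *ᵥ v ∈ Lam ι := Iff.rfl

omit [DecidableEq ι] in
lemma dot_int {u v : ι → ℚ} (hu : u ∈ Lam ι) (hv : v ∈ Lam ι) : ∃ z : ℤ, u ⬝ᵥ v = z := by
  choose a ha using hu
  choose b hb using hv
  exact ⟨∑ i, a i * b i, by simp [dotProduct, ha, hb]⟩

omit [DecidableEq ι] in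
lemma map_mulVec_mem (M : Matrix ι ι ℤ) {v : ι → ℚ} (hv : v ∈ Lam ι) :
    (M.map (Int.cast : ℤ → ℚ)) *ᵥ v ∈ Lam ι := by
  intro i
  exact dot_int (u := fun j => (M i j : ℚ)) (fun j => ⟨M i j, rfl⟩) hv

omit [Fintype ι] in
lemma single_mem (i : ι) : (Pi.single i 1 : ι → ℚ) ∈ Lam ι := by
  intro j
  by_cases h : j = i
  · exact ⟨1, by simp [h]⟩
  · exact ⟨0, by simp [h]⟩

lemma pow_mem (A : Matrix ι ι ℚ) (S : Submodule ℤ (ι → ℚ)) (hS : ∀ v ∈ S, A *ᵥ v ∈ S) (k : ℕ) :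
    ∀ v ∈ S, (A ^ k) *ᵥ v ∈ S := by
  induction k with
  | zero => intro v hv; simpa using hv
  | succ k ih => intro v hv; rw [pow_succ, ← mulVec_mulVec]; exact ih _ (hS v hv)

lemma aeval_mem (A : Matrix ι ι ℚ) (S : Submodule ℤ (ι → ℚ)) (hS : ∀ v ∈ S, A *ᵥ v ∈ S)
    (f : ℤ[X]) : ∀ v ∈ S, (aeval A f) *ᵥ v ∈ S := by
  induction f using Polynomial.induction_on' with
  | add p q hp hq => intro v hv; rw [map_add, add_mulVec]; exact add_mem (hp v hv) (hq v hv)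
  | monomial k a =>
    intro v hv
    rw [aeval_monomial, ← Algebra.smul_def, smul_mulVec]
    exact Submodule.smul_mem _ a (pow_mem A S hS k v hv)

lemma aeval_transpose (A : Matrix ι ι ℚ) (hA : Aᵀ = A) (f : ℤ[X]) :
    (aeval A f)ᵀ = aeval A f := by
  induction f using Polynomial.induction_on' with
  | add p q hp hq => rw [map_add, transpose_add, hp, hq]
  | monomial k a =>
    rw [aeval_monomial, ← Algebra.smul_def, transpose_smul, transpose_pow, hA]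

omit [DecidableEq ι] in
lemma symm_dot (M : Matrix ι ι ℚ) (hM : Mᵀ = M) (x y : ι → ℚ) :
    (M *ᵥ x) ⬝ᵥ y = x ⬝ᵥ (M *ᵥ y) := by
  rw [dotProduct_mulVec, ← mulVec_transpose, hM]

/-- the cyclic submodule generated by w -/
def Cyc (A : Matrix ι ι ℚ) (w : ι → ℚ) : Submodule ℤ (ι → ℚ) where
  carrier := {v | ∃ f : ℤ[X], v = (aeval A f) *ᵥ w}
  add_mem' := by
    rintro a b ⟨f, rfl⟩ ⟨g, rfl⟩
    exact ⟨f + g, by rw [map_add, add_mulVec]⟩
  zero_mem' := ⟨0, by simp⟩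
  smul_mem' := by
    rintro c a ⟨f, rfl⟩
    exact ⟨c • f, by rw [map_smul, smul_mulVec]⟩

end Pool.Agent.Lib.MP_e39433_co
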