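import Pool.Agent.Lib.MP_e39433_co.Main

open Matrix Polynomial

namespace Pool.Agent.Lib.MP_e39433_co

lemma map_mul' {ι : Type} [Fintype ι] (M N : Matrix ι ι ℤ) :
    (M * N).map (Int.cast : ℤ → ℚ) = M.map (Int.cast : ℤ → ℚ) * N.map (Int.cast : ℤ → ℚ) :=
  Matrix.map_mul (f := Int.castRingHom ℚ)

lemma map_one' {ι : Type} [DecidableEq ι] :
    (1 : Matrix ι ι ℤ).map (Int.cast : ℤ → ℚ) = 1 :=
  Matrix.map_one _ (by simp) (by simp)

lemma map_pow' {ι : Type} [Fintype ι] [DecidableEq ι] (M : Matrix ι ι ℤ) (k : ℕ) :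
    (M ^ k).map (Int.cast : ℤ → ℚ) = (M.map (Int.cast : ℤ → ℚ)) ^ k := by
  induction k with
  | zero => simp
  | succ k ih => rw [pow_succ, pow_succ, map_mul', ih]

theorem core {n : ℕ} (A : Matrix (Fin (n + 2)) (Fin (n + 2)) ℤ) (hA : Aᵀ = A)
    (e : Fin (n + 2) → ℤ) (W : Matrix (Fin (n + 2)) (Fin (n + 2)) ℤ)
    (hW : ∀ i j, W i j = (A ^ (j : ℕ) *ᵥ e) i) (hdet : W.det ≠ 0)
    (U V : Matrix (Fin (n + 2)) (Fin (n + 2)) ℤ) (hU : IsUnit U.det) (hV : IsUnit V.det)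
    (d : Fin (n + 2) → ℕ) (hS : U * W * V = Matrix.diagonal fun i => (d i : ℤ))
    (hd : ∀ i j, i ≤ j → d i ∣ d j)
    (Q : Matrix (Fin (n + 2)) (Fin (n + 2)) ℚ) (hQ : Qᵀ * Q = 1)
    (hQe : Q *ᵥ (fun i => (e i : ℚ)) = fun i => (e i : ℚ))
    (hB : ∀ i j, ∃ z : ℤ, (Qᵀ * A.map (Int.cast : ℤ → ℚ) * Q) i j = z) :
    (∀ i, d i ≠ 0) ∧ ∀ i j, ∃ z : ℤ,
      (Nat.floorRoot 2 (d (Fin.last (n + 1)) * d (Fin.last n).castSucc) : ℚ) * Q i j = z := by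
  have hd0 : ∀ i, d i ≠ 0 := by
    intro i hi
    have h1 := congrArg Matrix.det hS
    rw [det_mul, det_mul, det_diagonal] at h1
    have h2 : ∏ i, (d i : ℤ) = 0 := Finset.prod_eq_zero (Finset.mem_univ i) (by simp [hi])
    rw [h2] at h1
    exact (mul_ne_zero (mul_ne_zero hU.ne_zero hdet) hV.ne_zero) h1
  refine ⟨hd0, ?_⟩
  set l : Fin (n + 2) := Fin.last (n + 1) with hl
  set p : Fin (n + 2) := (Fin.last n).castSucc with hp
  set Aq := A.map (Int.cast : ℤ → ℚ) with hAq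
  set Wq := W.map (Int.cast : ℤ → ℚ) with hWq
  set eq : Fin (n + 2) → ℚ := fun i => (e i : ℚ) with heq
  have hAs : Aqᵀ = Aq := by rw [hAq, ← Matrix.transpose_map, hA]
  have heL : eq ∈ Lam (Fin (n + 2)) := fun i => ⟨e i, rfl⟩
  have hAL : ∀ v ∈ Lam (Fin (n + 2)), Aq *ᵥ v ∈ Lam (Fin (n + 2)) :=
    fun v hv => map_mulVec_mem A hv
  have hWv : ∀ v j, (Wqᵀ *ᵥ v) j = (Aq ^ (j : ℕ) *ᵥ eq) ⬝ᵥ v := by
    intro v j
    simp only [mulVec, dotProduct, transpose_apply, hWq, map_apply, hW, hAq, ← map_pow', heq]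
    push_cast
    rfl
  have hdetq : Wqᵀ.det ≠ 0 := by
    rw [det_transpose, hWq]
    have : (W.map (Int.cast : ℤ → ℚ)).det = (W.det : ℚ) :=
      ((Int.castRingHom ℚ).map_det W).symm
    rw [this]
    exact_mod_cast hdet
  have hinj : ∀ v, Wqᵀ *ᵥ v = 0 → v = 0 := fun v hv => eq_zero_of_mulVec_eq_zero hdetq hv
  set w : Fin (n + 2) → ℚ := (Wqᵀ)⁻¹ *ᵥ Pi.single l 1 with hwdef
  have hw : Wqᵀ *ᵥ w = Pi.single l 1 := by
    rw [hwdef, mulVec_mulVec, mul_nonsing_inv _ (isUnit_iff_ne_zero.2 hdetq), one_mulVec]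
  have hcyc := dual_cyclic A hA eq Wq hWv hinj w hw
  have hAD : ∀ v ∈ Pre Wqᵀ, Aq *ᵥ v ∈ Pre Wqᵀ := by
    intro v hv j
    rw [hWv, ← symm_dot Aq hAs, mulVec_mulVec, ← pow_succ']
    refine moments_int A eq v (fun j => ?_) _
    rw [← hWv]
    exact hv j
  have hLD : ∀ v ∈ Lam (Fin (n + 2)), v ∈ Pre Wqᵀ := by
    intro v hv
    rw [mem_Pre, hWq, ← Matrix.transpose_map]
    exact map_mulVec_mem _ hv
  have hwD : w ∈ Pre Wqᵀ := by
    rw [mem_Pre, hw]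
    exact single_mem _
  -- Smith coordinates
  set Ut := Uᵀ.map (Int.cast : ℤ → ℚ) with hUt
  set Ui := (U⁻¹)ᵀ.map (Int.cast : ℤ → ℚ) with hUi
  set Vt := Vᵀ.map (Int.cast : ℤ → ℚ) with hVt
  set Vi := (V⁻¹)ᵀ.map (Int.cast : ℤ → ℚ) with hVi
  have hU1 : Ut * Ui = 1 := by
    rw [hUt, hUi, ← map_mul', ← transpose_mul, nonsing_inv_mul _ hU, transpose_one, map_one']
  have hU2 : Ui * Ut = 1 := by
    rw [hUt, hUi, ← map_mul', ← transpose_mul, mul_nonsing_inv _ hU, transpose_one, map_one']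
  have hV2 : Vi * Vt = 1 := by
    rw [hVt, hVi, ← map_mul', ← transpose_mul, mul_nonsing_inv _ hV, transpose_one, map_one']
  have hS' : Vt * Wqᵀ * Ut = Matrix.diagonal fun i => (d i : ℚ) := by
    have h1 := congrArg (fun M : Matrix _ _ ℤ => Mᵀ.map (Int.cast : ℤ → ℚ)) hS
    simp only [transpose_mul, map_mul', diagonal_transpose] at h1
    rw [hVt, hUt, hWq, ← Matrix.transpose_map (M := W), Matrix.mul_assoc, h1,
      diagonal_map (by simp)]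
    simp
  have hy : ∀ v ∈ Pre Wqᵀ, ∀ i, ∃ z : ℤ, (d i : ℚ) * (Ui *ᵥ v) i = z := by
    intro v hv i
    have h1 : Vt *ᵥ (Wqᵀ *ᵥ v) ∈ Lam (Fin (n + 2)) := map_mulVec_mem _ hv
    have h2 : Vt *ᵥ (Wqᵀ *ᵥ v) = (Matrix.diagonal fun i => (d i : ℚ)) *ᵥ (Ui *ᵥ v) := by
      rw [← hS', mulVec_mulVec, mulVec_mulVec, Matrix.mul_assoc (Vt * Wqᵀ), hU1, Matrix.mul_one]
    rw [h2] at h1
    have := h1 i
    rwa [mulVec_diagonal] at this
  have hback : ∀ v, Ui *ᵥ v ∈ Lam (Fin (n + 2)) → v ∈ Lam (Fin (n + 2)) := by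
    intro v hv
    have h1 : Ut *ᵥ (Ui *ᵥ v) ∈ Lam (Fin (n + 2)) := map_mulVec_mem _ hv
    rwa [mulVec_mulVec, hU1, one_mulVec] at h1
  have hNq : (d l : ℚ) ≠ 0 := by exact_mod_cast hd0 l
  set t : Fin (n + 2) → ℚ := Ut *ᵥ Pi.single l (d l : ℚ)⁻¹ with ht
  have hyt : Ui *ᵥ t = Pi.single l (d l : ℚ)⁻¹ := by
    rw [ht, mulVec_mulVec, hU2, one_mulVec]
  have htD : t ∈ Pre Wqᵀ := by
    rw [mem_Pre]
    have h1 : Wqᵀ *ᵥ t = Vi *ᵥ Pi.single l 1 := by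
      have h2 : Wqᵀ * Ut = Vi * Matrix.diagonal fun i => (d i : ℚ) := by
        rw [← hS', ← Matrix.mul_assoc, ← Matrix.mul_assoc, hV2, Matrix.one_mul]
      rw [ht, mulVec_mulVec, h2, ← mulVec_mulVec]
      congr 1
      funext i
      rw [mulVec_diagonal]
      by_cases h : i = l
      · subst h
        simp [hNq]
      · simp [h]
    rw [h1]
    exact map_mulVec_mem _ (single_mem _)
  obtain ⟨q, hq⟩ : d p ∣ d l := hd p l (Fin.le_last _)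
  have hmq : (d p : ℤ) * (q : ℤ) = (d l : ℤ) := by exact_mod_cast hq.symm
  have hN : ∀ v ∈ Pre Wqᵀ, ((d p : ℤ) * (q : ℤ)) • v ∈ Lam (Fin (n + 2)) := by
    intro v hv
    apply hback
    intro i
    obtain ⟨z, hz⟩ := hy v hv i
    obtain ⟨c, hc⟩ : d i ∣ d l := hd i l (Fin.le_last _)
    refine ⟨c * z, ?_⟩
    rw [hmq, mulVec_smul, Pi.smul_apply, hc]
    push_cast
    rw [← hz]
    simp
    ring
  have hord : ∀ k : ℤ, k • t ∈ Lam (Fin (n + 2)) → (d p : ℤ) * (q : ℤ) ∣ k := by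
    intro k hk
    have h1 : Ui *ᵥ (k • t) ∈ Lam (Fin (n + 2)) := map_mulVec_mem _ hk
    obtain ⟨z, hz⟩ := h1 l
    rw [mulVec_smul, hyt] at hz
    simp at hz
    refine ⟨z, ?_⟩
    rw [hmq]
    have : (k : ℚ) = (d l : ℚ) * z := by
      rw [← hz]
      field_simp
    exact_mod_cast this
  have hK : ∀ v ∈ Pre Wqᵀ, ∃ a : ℤ,
      (d p : ℤ) • v - ((d p : ℤ) * a) • t ∈ Lam (Fin (n + 2)) := by
    intro v hv
    obtain ⟨a, ha⟩ := hy v hv l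
    refine ⟨a, hback _ ?_⟩
    intro i
    rw [mulVec_sub, mulVec_smul, mulVec_smul, hyt, Pi.sub_apply, Pi.smul_apply, Pi.smul_apply]
    by_cases h : i = l
    · refine ⟨0, ?_⟩
      rw [h]
      simp only [Pi.single_eq_same, zsmul_eq_mul]
      push_cast
      rw [← ha]
      field_simp
      simp
    · obtain ⟨z, hz⟩ := hy v hv i
      have hip : i ≤ p := by
        have h1 : (i : ℕ) ≠ n + 1 := fun h2 => h (Fin.ext (by simpa [hl] using h2))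
        have h2 := i.2
        rw [Fin.le_def]
        simp [hp]
        omega
      obtain ⟨c, hc⟩ : d i ∣ d p := hd i p hip
      refine ⟨c * z, ?_⟩
      rw [Pi.single_eq_of_ne h, hc]
      push_cast
      rw [← hz]
      simp
      ring
  -- the second lattice
  have hQ' : Q * Qᵀ = 1 := mul_eq_one_comm.1 hQ
  have hA1 : ∀ v ∈ Pre Qᵀ, Aq *ᵥ v ∈ Pre Qᵀ := by
    intro v hv i
    have h1 : Qᵀ *ᵥ (Aq *ᵥ v) = (Qᵀ * Aq * Q) *ᵥ (Qᵀ *ᵥ v) := by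
      rw [mulVec_mulVec, mulVec_mulVec, Matrix.mul_assoc (Qᵀ * Aq), hQ', Matrix.mul_one]
    rw [h1]
    exact dot_int (u := fun j => (Qᵀ * Aq * Q) i j) (fun j => hB i j) hv
  have hdot : ∀ u ∈ Pre Qᵀ, ∀ v ∈ Pre Qᵀ, ∃ z : ℤ, u ⬝ᵥ v = z := by
    intro u hu v hv
    have h1 : u ⬝ᵥ v = (Qᵀ *ᵥ u) ⬝ᵥ (Qᵀ *ᵥ v) := by
      rw [mulVec_transpose Q u, ← dotProduct_mulVec, mulVec_mulVec, hQ', one_mulVec]
    rw [h1]
    exact dot_int hu hv
  have he1 : eq ∈ Pre Qᵀ := by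
    rw [mem_Pre]
    have : Qᵀ *ᵥ eq = eq := by
      conv_lhs => rw [← hQe]
      rw [mulVec_mulVec, hQ, one_mulVec]
    rw [this]
    exact heL
  intro i j
  set v : Fin (n + 2) → ℚ := Q *ᵥ Pi.single j 1 with hv
  have hv1 : v ∈ Pre Qᵀ := by
    rw [mem_Pre, hv, mulVec_mulVec, hQ, one_mulVec]
    exact single_mem _
  have hvD : v ∈ Pre Wqᵀ := by
    intro k
    rw [hWv]
    exact hdot _ (pow_mem Aq _ hA1 _ _ he1) _ hv1
  obtain ⟨r, hr, hrv⟩ := kill Aq hAs hAL (Pre Wqᵀ) hAD hLD w t hwD htD hcyc (d p : ℤ) (q : ℤ)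
    (by exact_mod_cast hd0 p) hN hord hK v hvD
    (fun g => hdot _ hv1 _ (aeval_mem Aq _ hA1 g _ hv1))
  rw [hmq] at hr
  have hr2 : r.natAbs ^ 2 ∣ d l * d p := by
    have := Int.natAbs_dvd_natAbs.2 hr
    simpa [Int.natAbs_pow, Int.natAbs_mul] using this
  obtain ⟨c, hc⟩ : r ∣ (Nat.floorRoot 2 (d l * d p) : ℤ) :=
    Int.natAbs_dvd.1 (Int.natCast_dvd_natCast.2 (Nat.pow_dvd_iff_dvd_floorRoot.1 hr2))
  obtain ⟨z, hz⟩ := hrv i
  refine ⟨c * z, ?_⟩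
  have h1 : (Nat.floorRoot 2 (d l * d p) : ℚ) = (r : ℚ) * c := by exact_mod_cast hc
  have h2 : v i = Q i j := by simp [hv]
  rw [h1]
  push_cast
  rw [← hz, ← h2]
  simp
  ring

end Pool.Agent.Lib.MP_e39433_co
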