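import Pool.Agent.Lib.MP_e39433_co.Core

open Matrix Polynomial

namespace Pool.Agent.Lib.MP_e39433_co

/-- all moments of a vector of the dual lattice are integers (Cayley-Hamilton) -/
lemma moments_int {N : ℕ} (A : Matrix (Fin N) (Fin N) ℤ) (e v : Fin N → ℚ)
    (hv : ∀ j : Fin N, ∃ z : ℤ, ((A.map (Int.cast : ℤ → ℚ)) ^ (j : ℕ) *ᵥ e) ⬝ᵥ v = z) (k : ℕ) :
    ∃ z : ℤ, ((A.map (Int.cast : ℤ → ℚ)) ^ k *ᵥ e) ⬝ᵥ v = z := by
  rcases Nat.eq_zero_or_pos N with hN | hN
  · subst hN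
    exact ⟨0, by simp [dotProduct]⟩
  have hmon : A.charpoly.Monic := A.charpoly_monic
  set r : ℤ[X] := X ^ k %ₘ A.charpoly with hr
  have hdeg : r.natDegree < N := by
    have h1 : A.charpoly.natDegree = N := by simp
    have h2 : A.charpoly ≠ 1 := by
      intro h
      rw [h] at h1
      simp at h1
      omega
    have := natDegree_modByMonic_lt (X ^ k) hmon h2
    rw [h1] at this
    exact this
  have h1 : A ^ k = aeval A r := A.pow_eq_aeval_mod_charpoly k
  rw [aeval_eq_sum_range' hdeg] at h1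
  have h2 : (A.map (Int.cast : ℤ → ℚ)) ^ k
      = ∑ i ∈ Finset.range N, r.coeff i • (A.map (Int.cast : ℤ → ℚ)) ^ i := by
    have h3 := congrArg (fun M : Matrix (Fin N) (Fin N) ℤ => (Int.castRingHom ℚ).mapMatrix M) h1
    simp only [map_pow, map_sum, map_zsmul, RingHom.mapMatrix_apply] at h3
    simpa using h3
  rw [h2, Matrix.sum_mulVec, sum_dotProduct]
  choose z hz using hv
  refine ⟨∑ i : Fin N, r.coeff i * z i, ?_⟩
  rw [Finset.sum_range]
  push_cast
  refine Finset.sum_congr rfl fun i _ => ?_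
  rw [smul_mulVec, smul_dotProduct, hz i]
  simp

/-- the dual lattice of the walk lattice is cyclic -/
lemma dual_cyclic {n : ℕ} (A : Matrix (Fin (n + 1)) (Fin (n + 1)) ℤ) (hA : Aᵀ = A)
    (e : Fin (n + 1) → ℚ) (W : Matrix (Fin (n + 1)) (Fin (n + 1)) ℚ)
    (hW : ∀ v j, (Wᵀ *ᵥ v) j = ((A.map (Int.cast : ℤ → ℚ)) ^ (j : ℕ) *ᵥ e) ⬝ᵥ v)
    (hinj : ∀ v, Wᵀ *ᵥ v = 0 → v = 0) (w : Fin (n + 1) → ℚ)
    (hw : Wᵀ *ᵥ w = Pi.single (Fin.last n) 1) :
    ∀ v ∈ Pre Wᵀ, v ∈ Cyc (A.map (Int.cast : ℤ → ℚ)) w := by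
  set Aq := A.map (Int.cast : ℤ → ℚ) with hAq
  have hAs : Aqᵀ = Aq := by
    rw [hAq, ← Matrix.transpose_map, hA]
  have hwL : ∀ j : Fin (n + 1), ∃ z : ℤ, (Aq ^ (j : ℕ) *ᵥ e) ⬝ᵥ w = z := by
    intro j
    rw [← hW, hw]
    exact single_mem _ j
  have hshift : ∀ (j t : ℕ), (Aq ^ j *ᵥ e) ⬝ᵥ (Aq ^ t *ᵥ w) = (Aq ^ (j + t) *ᵥ e) ⬝ᵥ w := by
    intro j t
    rw [← symm_dot (Aq ^ t) (by rw [transpose_pow, hAs]), mulVec_mulVec, ← pow_add, add_comm t j]
  have hpow : ∀ t : ℕ, Aq ^ t *ᵥ w ∈ Pre Wᵀ := by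
    intro t j
    rw [hW, hshift]
    exact moments_int A e w hwL _
  have key : ∀ t : ℕ, t ≤ n + 1 → ∀ v ∈ Pre Wᵀ,
      (∀ j : Fin (n + 1), (j : ℕ) + t < n + 1 → (Wᵀ *ᵥ v) j = 0) → v ∈ Cyc Aq w := by
    intro t
    induction t with
    | zero =>
      intro _ v _ h0
      have : v = 0 := hinj v (funext fun j => h0 j (by simpa using j.2))
      rw [this]
      exact zero_mem _
    | succ t ih =>
      intro ht v hv h0
      obtain ⟨c, hc⟩ := hv ⟨n - t, by omega⟩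
      have hmem : c • (Aq ^ t *ᵥ w) ∈ Cyc Aq w :=
        Submodule.smul_mem _ c ⟨X ^ t, by simp⟩
      have h1 : v - c • (Aq ^ t *ᵥ w) ∈ Cyc Aq w := by
        refine ih (by omega) _ (sub_mem hv (Submodule.smul_mem _ c (hpow t))) ?_
        intro j hj
        rw [mulVec_sub, mulVec_smul, Pi.sub_apply, Pi.smul_apply, hW (Aq ^ t *ᵥ w), hshift]
        have h2 : (Aq ^ ((j : ℕ) + t) *ᵥ e) ⬝ᵥ w
            = (Pi.single (Fin.last n) 1 : Fin (n + 1) → ℚ) ⟨j + t, hj⟩ := by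
          rw [← hw, hW]
        rw [h2]
        by_cases h3 : (j : ℕ) + t = n
        · have h4 : j = ⟨n - t, by omega⟩ := Fin.ext (by simp; omega)
          have h5 : (⟨j + t, hj⟩ : Fin (n + 1)) = Fin.last n := Fin.ext (by simpa using h3)
          rw [h5, h4, hc]
          simp
        · have h5 : (⟨j + t, hj⟩ : Fin (n + 1)) ≠ Fin.last n := by
            intro h
            exact h3 (by simpa using congrArg Fin.val h)
          rw [h0 j (by omega), Pi.single_eq_of_ne h5]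
          simp
      have := add_mem h1 hmem
      simpa using this
  intro v hv
  exact key (n + 1) le_rfl v hv (fun j hj => by omega)

/-- abstract core: a vector v of an integral A-stable lattice inside the dual lattice
is killed by a number whose square divides the product of the last two invariant factors -/
lemma kill {ι : Type} [Fintype ι] [DecidableEq ι] (A : Matrix ι ι ℚ) (hA : Aᵀ = A)
    (hAL : ∀ v ∈ Lam ι, A *ᵥ v ∈ Lam ι)
    (D : Submodule ℤ (ι → ℚ)) (hAD : ∀ v ∈ D, A *ᵥ v ∈ D) (hLD : ∀ v ∈ Lam ι, v ∈ D)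
    (w t : ι → ℚ) (hw : w ∈ D) (ht : t ∈ D) (hcyc : ∀ v ∈ D, v ∈ Cyc A w)
    (m q : ℤ) (hm : m ≠ 0)
    (hN : ∀ v ∈ D, (m * q) • v ∈ Lam ι)
    (hord : ∀ k : ℤ, k • t ∈ Lam ι → m * q ∣ k)
    (hK : ∀ v ∈ D, ∃ a : ℤ, m • v - (m * a) • t ∈ Lam ι)
    (v : ι → ℚ) (hv : v ∈ D) (hvi : ∀ g : ℤ[X], ∃ z : ℤ, v ⬝ᵥ (aeval A g *ᵥ v) = z) :
    ∃ r : ℤ, r ^ 2 ∣ (m * q) * m ∧ r • v ∈ Lam ι := by
  obtain ⟨f, hf⟩ := hcyc v hv
  obtain ⟨g, hg⟩ := hcyc t ht
  obtain ⟨a, ha⟩ := hK v hv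
  obtain ⟨b, hb⟩ := hK w hw
  obtain ⟨b', hb'⟩ := hK _ (aeval_mem A D hAD g t ht)
  -- f(A) v is integral
  have hfv : aeval A f *ᵥ v ∈ Lam ι := by
    intro i
    obtain ⟨h, hh⟩ := hcyc _ (hLD _ (single_mem i))
    obtain ⟨z, hz⟩ := hvi h
    refine ⟨z, ?_⟩
    have h1 : (aeval A f *ᵥ v) i = (aeval A f *ᵥ v) ⬝ᵥ (Pi.single i 1) := by simp
    rw [h1, hh, symm_dot _ (aeval_transpose A hA f), mulVec_mulVec, ← map_mul, mul_comm f h,
      map_mul, ← mulVec_mulVec, ← hf, hz]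
  -- b is invertible modulo q
  have h1 : m • t - (m * b) • (aeval A g *ᵥ t) ∈ Lam ι := by
    have := aeval_mem A _ hAL g _ hb
    rwa [mulVec_sub, mulVec_smul, mulVec_smul, ← hg] at this
  have h2 : (m * (1 - b * b')) • t ∈ Lam ι := by
    have h3 := add_mem h1 (Submodule.smul_mem _ b hb')
    have h4 : m • t - (m * b) • (aeval A g *ᵥ t)
        + b • (m • (aeval A g *ᵥ t) - (m * b') • t) = (m * (1 - b * b')) • t := by
      module
    rwa [h4] at h3
  obtain ⟨s, hs⟩ : q ∣ 1 - b * b' := (mul_dvd_mul_iff_left hm).1 (hord _ h2)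
  have h5 : m • v - (a * b' * m) • w ∈ Lam ι := by
    have h6 := add_mem (sub_mem ha (Submodule.smul_mem _ (a * b') hb))
      (Submodule.smul_mem _ a h2)
    have h7 : m • v - (m * a) • t - (a * b') • (m • w - (m * b) • t)
        + a • (m * (1 - b * b')) • t = m • v - (a * b' * m) • w := by
      module
    rwa [h7] at h6
  have h8 : (a * b' * m) • v ∈ Lam ι := by
    have h9 := aeval_mem A _ hAL f _ h5
    rw [mulVec_sub, mulVec_smul, mulVec_smul, ← hf] at h9
    have h10 := sub_mem (Submodule.smul_mem _ m hfv) h9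
    simpa using h10
  have h11 : (a * m) • v ∈ Lam ι := by
    have h12 := add_mem (Submodule.smul_mem _ b h8) (Submodule.smul_mem _ (a * s) (hN v hv))
    have h13 : b • (a * b' * m) • v + (a * s) • (m * q) • v = (a * m) • v := by
      have h14 : a * m = b * (a * b' * m) + a * s * (m * q) := by
        have : b * (a * b' * m) + a * s * (m * q) = a * m * (b * b' + q * s) := by ring
        rw [this, ← hs]
        ring
      rw [smul_smul, smul_smul, ← add_smul, ← h14]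
    rwa [h13] at h12
  -- gcd bookkeeping
  set c : ℤ := (Int.gcd a q : ℤ) with hc
  obtain ⟨a', ha'⟩ : c ∣ a := Int.gcd_dvd_left a q
  obtain ⟨q', hq'⟩ : c ∣ q := Int.gcd_dvd_right a q
  have h15 : (m * c) • v ∈ Lam ι := by
    have h16 := add_mem (Submodule.smul_mem _ (Int.gcdA a q) h11)
      (Submodule.smul_mem _ (Int.gcdB a q) (hN v hv))
    have h17 : Int.gcdA a q • (a * m) • v + Int.gcdB a q • (m * q) • v = (m * c) • v := by
      rw [hc, Int.gcd_eq_gcd_ab, smul_smul, smul_smul, ← add_smul]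
      congr 1
      ring
    rwa [h17] at h16
  have h18 : (m * q') • v ∈ Lam ι := by
    have h19 := add_mem (Submodule.smul_mem _ q' ha) (Submodule.smul_mem _ a' (hN t ht))
    have h20 : q' • (m • v - (m * a) • t) + a' • (m * q) • t = (m * q') • v := by
      have h21 : q' * (m * a) = a' * (m * q) := by
        calc q' * (m * a) = q' * (m * (c * a')) := by rw [← ha']
          _ = a' * (m * (c * q')) := by ring
          _ = a' * (m * q) := by rw [← hq']
      rw [smul_sub, smul_smul, smul_smul, smul_smul, h21, mul_comm q' m]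
      abel
    rwa [h20] at h19
  refine ⟨(Int.gcd (m * c) (m * q') : ℤ), ?_, ?_⟩
  · have h22 : m * q * m = (m * c) * (m * q') := by
      calc m * q * m = m * (c * q') * m := by rw [← hq']
        _ = (m * c) * (m * q') := by ring
    rw [h22, pow_two]
    exact mul_dvd_mul (Int.gcd_dvd_left _ _) (Int.gcd_dvd_right _ _)
  · have h23 := add_mem (Submodule.smul_mem _ (Int.gcdA (m * c) (m * q')) h15)
      (Submodule.smul_mem _ (Int.gcdB (m * c) (m * q')) h18)
    rw [smul_smul, smul_smul, ← add_smul, mul_comm (Int.gcdA _ _), mul_comm (Int.gcdB _ _),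
      ← Int.gcd_eq_gcd_ab] at h23
    exact h23

end Pool.Agent.Lib.MP_e39433_co
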